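import Pool.Agent.Q245.Vg.Final2

/-!
# Over `ℚ`, Q1 for all unions of fibres follows from Q1 for one of them

`X = ℙ¹ × ℙ¹` over `ℚ`. A point `P = ((x : y), (z : w))` is given by coprime integers `x, y` and
coprime integers `z, w`, with heights `H(x, y) = max (|x|, |y|)` and `H(z, w)`. If `D` is given by
the bihomogeneous form `Φ` of bidegree `(q, r)` over `ℤ`, then `N¹(D, P)` is the logarithm of the
product `rad Φ(x, y, z, w)` of the primes which divide `Φ(x, y, z, w)`, so `Vojta q r Φ` is the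
statement of Q1 for `D` over `ℚ`. Here `Z` is given by a polynomial `E ≠ 0` in the affine
coordinates `x / y`, `z / w`; the fibres `y = 0` and `w = 0` are added to `Z`.
-/

set_option autoImplicit false

namespace Pool.Agent.Results.MP_542436_nt.ConjugateGrid

open Polynomial
open scoped Polynomial.Bivariate

/-- the product of the primes which divide `n` -/
def rad (n : ℤ) : ℕ := ∏ p ∈ n.natAbs.primeFactors, p

/-- the (multiplicative) height of the point `(x : y)`, for coprime `x`, `y` -/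
noncomputable def H (x y : ℤ) : ℝ := max |(x : ℝ)| |(y : ℝ)|

/-- the points `((x : y), (z : w))` off `D = {Φ = 0}`, off `y = 0` and `w = 0` and off the curve
`E (x / y, z / w) = 0` with `N¹(D, P) < (q - 2) h(x : y) + (r - 2) h(z : w) - ε (h + h) - C` -/
noncomputable def Exceptions (q r : ℕ) (Φ : ℤ → ℤ → ℤ → ℤ → ℤ) (E : ℚ[X][Y]) (ε C : ℝ) :
    Set (ℤ × ℤ × ℤ × ℤ) :=
  {P | IsCoprime P.1 P.2.1 ∧ IsCoprime P.2.2.1 P.2.2.2 ∧ P.2.1 ≠ 0 ∧ P.2.2.2 ≠ 0 ∧
    Φ P.1 P.2.1 P.2.2.1 P.2.2.2 ≠ 0 ∧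
    E.evalEval ((P.1 : ℚ) / P.2.1) ((P.2.2.1 : ℚ) / P.2.2.2) ≠ 0 ∧
    Real.log (rad (Φ P.1 P.2.1 P.2.2.1 P.2.2.2)) <
      ((q : ℝ) - 2) * Real.log (H P.1 P.2.1) + ((r : ℝ) - 2) * Real.log (H P.2.2.1 P.2.2.2)
        - ε * (Real.log (H P.1 P.2.1) + Real.log (H P.2.2.1 P.2.2.2)) - C}

/-- the statement of Q1 for the divisor `Φ = 0` of bidegree `(q, r)` over `ℚ` -/
def Vojta (q r : ℕ) (Φ : ℤ → ℤ → ℤ → ℤ → ℤ) : Prop :=
  ∀ ε : ℝ, 0 < ε → ∃ E : ℚ[X][Y], E ≠ 0 ∧ ∀ C : ℝ, (Exceptions q r Φ E ε C).Finite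

/-- the binary form `∑ f_i x^i y^(q - i)` of degree `q` -/
noncomputable def form (q : ℕ) (f : ℤ[X]) (x y : ℤ) : ℤ :=
  ∑ i ∈ Finset.range (q + 1), f.coeff i * x ^ i * y ^ (q - i)

/-- `q ≥ 3`, and the divisor `form q f = 0` of degree `q` on the projective line is reduced: `f` is
squarefree, and its degree is `q`, or `q - 1` (if `∞` is a point of the divisor) -/
def Reduced (q : ℕ) (f : ℤ[X]) : Prop :=
  3 ≤ q ∧ Squarefree (f.map (Int.castRingHom ℚ)) ∧ f.natDegree ≤ q ∧ q ≤ f.natDegree + 1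

/-- the form with the zeros `∞` and the two zeros of `a x² + b x y + c y²` -/
def cubic (a b c : ℤ) (x y : ℤ) : ℤ := y * (a * x ^ 2 + b * x * y + c * y ^ 2)

/-- the bihomogeneous form `∑ φ_{ij} x^i y^(q-i) z^j w^(r-j)` of bidegree `(q, r)` -/
noncomputable def biform (q r : ℕ) (φ : ℤ[X][Y]) (x y z w : ℤ) : ℤ :=
  ∑ j ∈ Finset.range (r + 1), ∑ i ∈ Finset.range (q + 1),
    (φ.coeff j).coeff i * x ^ i * y ^ (q - i) * z ^ j * w ^ (r - j)

/-- The statement of Q1 over `ℚ` for one grid, of the fibres over `∞` and two points which are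
rational or conjugate over `ℚ(√δ)`, `δ` with even `2`-adic valuation (in each coordinate), is
equivalent to the one for all grids `D₁ × ℙ¹ + ℙ¹ × D₂`, and it follows from the one for any single
divisor which contains the grid. -/
theorem result (a b c : ℤ) (j : ℕ) (m : ℤ) (a' b' c' : ℤ) (j' : ℕ) (m' : ℤ) (ha : a ≠ 0)
    (ha' : a' ≠ 0) (hm : Odd m) (hm' : Odd m') (hd : b ^ 2 - 4 * a * c = 4 ^ j * m)
    (hd' : b' ^ 2 - 4 * a' * c' = 4 ^ j' * m') :
    (Vojta 3 3 (fun x y z w => cubic a b c x y * cubic a' b' c' z w) ↔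
      ∀ (q r : ℕ) (f g : ℤ[X]), Reduced q f → Reduced r g →
        Vojta q r (fun x y z w => form q f x y * form r g z w)) ∧
    ∀ (q r : ℕ) (φ : ℤ[X][Y]), φ ≠ 0 → φ.natDegree ≤ r → (∀ i, (φ.coeff i).natDegree ≤ q) →
      Vojta (q + 3) (r + 3) (fun x y z w => cubic a b c x y * cubic a' b' c' z w *
        biform q r φ x y z w) →
      Vojta 3 3 (fun x y z w => cubic a b c x y * cubic a' b' c' z w) :=
  Pool.Agent.Q245.Vg.main3 a b c j m a' b' c' j' m' ha ha' hm hm' hd hd'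

end Pool.Agent.Results.MP_542436_nt.ConjugateGrid
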