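import Pool.Agent.Q229.RAH
import Pool.Agent.Results.MP_542436_nt.SplitCurves

/-!
# MP_542436_nt: the truncated inequality on the product of two lines at ALL good approximations of almost every pair

Let `K` be a number field with an embedding `φ : K → ℂ`, and let `D` be a divisor with normal crossings on the product of two
lines which is the union of fibres of the first projection and of fibres of the second projection and graphs of invertible
linear maps, with rational crossing points and without triple points, of bidegree `(a, b)`, and `S` a finite set of primes.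

Let `H` be the larger height, relative to `K`, of the numbers `x`, `y`. There are about `B ^ 4` pairs `(x, y) ∈ K ^ 2` with
`H ≤ B`, and almost every pair `z` of complex numbers (of real numbers, if `φ` is real) has infinitely many approximations
`(φ(x), φ(y))` with distance at most `H ^ (-ρ)` for `ρ < 1` (`ρ < 2`), but only finitely many for `ρ > 1` (`ρ > 2`).

We show that for almost all `z` all but finitely many of the `(x, y)` off `D` with distance at most `H ^ (-1)` (`H ^ (-2)` in
the real case) satisfy `N^(1)(D, (x, y)) ≥ (a - κ) h(x) + (b - κ) h(y) + c` for all `κ > 0` and all `c`; the pairs `z` with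
infinitely many exceptions of exponent `τ` form a set of Hausdorff dimension at most `max(2 (2 - κ), 10 / 3) / τ`.

Proof: the number of exceptions of bounded height (starting file `SplitCurves`) and a covering.
-/

set_option autoImplicit false

namespace Pool.Agent.Results.MP_542436_nt.GoodApproximations

open NumberField IsDedekindDomain MeasureTheory

/-- the logarithmic height `h_K`, relative to `K`, of the point `[x : 1]` -/
noncomputable def height {K : Type} [Field K] [NumberField K] (x : K) : ℝ :=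
  ∑ w : InfinitePlace K, (w.mult : ℝ) * Real.log (max (w x) (w 1)) +
    ∑ᶠ v : HeightOneSpectrum (RingOfIntegers K),
      Real.log (max (FinitePlace.mk v x) (FinitePlace.mk v 1))

/-- `τ` is a constant point of the line (`e = 0`) or an invertible linear map (`e = 1`); the
curve `{(s, t) : t proportional to τ s}` in the product of two lines is a fibre of the second
projection (`e = 0`) or a smooth curve of bidegree `(1, 1)` (`e = 1`) -/
def IsForm {K : Type} [Field K] (e : ℕ) (τ : K × K → K × K) : Prop :=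
  (e = 0 ∧ ∃ b : K × K, b ≠ 0 ∧ ∀ s, τ s = b) ∨
    (e = 1 ∧ ∃ p r : K × K, p.1 * r.2 - p.2 * r.1 ≠ 0 ∧
      ∀ s, τ s = (p.1 * s.1 + p.2 * s.2, r.1 * s.1 + r.2 * s.2))

/-- the value at `([x : 1], [y : 1])` of the equation of the divisor `D`, the union of the
fibres `s = γ i`, `i ∈ A`, of the first projection and of the curves `t = τ k s` -/
def equation {K : Type} [Field K] {g t : ℕ} (γ : Fin g → K × K) (A : Finset (Fin g))
    (τ : Fin t → K × K → K × K) (x y : K) : K :=
  (∏ i ∈ A, (x * (γ i).2 - 1 * (γ i).1)) *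
    ∏ k, (y * (τ k (x, 1)).2 - 1 * (τ k (x, 1)).1)

/-- the local height `-log (|F(s, t)| / (|s| ^ a * |t| ^ b))` at the prime `v` of the point
`([x : 1], [y : 1])`, for a divisor of bidegree `(a, b)` whose equation has the value `f` -/
noncomputable def localHeight {K : Type} [Field K] [NumberField K]
    (v : HeightOneSpectrum (RingOfIntegers K)) (a b : ℕ) (f x y : K) : ℝ :=
  -Real.log (FinitePlace.mk v f /
    (max (FinitePlace.mk v x) (FinitePlace.mk v 1) ^ a *
      max (FinitePlace.mk v y) (FinitePlace.mk v 1) ^ b))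

/-- the truncated counting function: the sum over the primes `v` outside `T` of
`min (λ_{D, v}) (log N v)` -/
noncomputable def counting {K : Type} [Field K] [NumberField K]
    (T : Set (HeightOneSpectrum (RingOfIntegers K))) {g t : ℕ} (γ : Fin g → K × K)
    (A : Finset (Fin g)) (deg : Fin t → ℕ) (τ : Fin t → K × K → K × K) (x y : K) : ℝ :=
  ∑ᶠ (v : HeightOneSpectrum (RingOfIntegers K)) (_ : v ∉ T),
    min (localHeight v (A.card + ∑ k, deg k) t (equation γ A τ x y) x y)
      (Real.log (Ideal.absNorm v.asIdeal : ℝ))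

/-- The divisor `D` has normal crossings with rational crossing points: the curves `t = τ k s` (each a fibre of the second
projection or a smooth curve of bidegree `(1, 1)`) meet in the points above the `γ i`, `i ∈ S k l`: `τ k s ∧ τ l s` is a
nonzero constant times the product of `deg k + deg l` different linear forms, vanishing at the points `γ i`, `i ∈ S k l`, and
there are no triple points (also not on the fibres `s = γ i`, `i ∈ A`). -/
structure NormalCrossings {K : Type} [Field K] {g t : ℕ} (γ : Fin g → K × K) (A : Finset (Fin g)) (deg : Fin t → ℕ)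
    (τ : Fin t → K × K → K × K) (S : Fin t → Fin t → Finset (Fin g)) (u : Fin t → Fin t → K) : Prop where
  nonempty : 1 ≤ g ∧ 1 ≤ t
  ne_zero : ∀ i, γ i ≠ 0
  different : ∀ i j, i ≠ j → (γ i).1 * (γ j).2 - (γ i).2 * (γ j).1 ≠ 0
  form : ∀ k, IsForm (deg k) (τ k)
  crossing : ∀ k l, k ≠ l → u k l ≠ 0 ∧ (S k l).card = deg k + deg l ∧
    ∀ s : K × K, (τ k s).1 * (τ l s).2 - (τ k s).2 * (τ l s).1 =
      u k l * ∏ i ∈ S k l, (s.1 * (γ i).2 - s.2 * (γ i).1)
  disjoint : ∀ k l, k ≠ l → Disjoint A (S k l)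
  triple : ∀ k l m, k ≠ l → k ≠ m → l ≠ m → Disjoint (S k m) (S l m)

/-- the larger multiplicative height, relative to `K`, of the two coordinates -/
noncomputable def H {K : Type} [Field K] [NumberField K] (z : K × K) : ℝ :=
  Real.exp (max (height z.1) (height z.2))

/-- The points `(x, y)` off `D` with `N^(1)(D, (x, y)) < (a - κ) h(x) + (b - κ) h(y) + c`, where `(a, b)` is the bidegree of
`D`. -/
def Exceptions {K : Type} [Field K] [NumberField K] (T : Set (HeightOneSpectrum (𝓞 K))) {g t : ℕ} (γ : Fin g → K × K)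
    (A : Finset (Fin g)) (deg : Fin t → ℕ) (τ : Fin t → K × K → K × K) (κ c : ℝ) : Set (K × K) :=
  {z | equation γ A τ z.1 z.2 ≠ 0 ∧ counting T γ A deg τ z.1 z.2 <
    (((A.card + ∑ k, deg k : ℕ) : ℝ) - κ) * height z.1 + ((t : ℝ) - κ) * height z.2 + c}

/-- the coordinates in `ℂ` -/
def coord {K : Type} [Field K] (φ : K →+* ℂ) (z : K × K) : Fin 2 → ℂ := ![φ z.1, φ z.2]

theorem height_eq {K : Type} [Field K] [NumberField K] (x : K) : height x = Height.logHeight₁ x := by
  rw [NumberField.logHeight₁_eq, height]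
  congr 1
  · refine Finset.sum_congr rfl fun v _ => ?_
    rw [map_one, Real.posLog_eq_log_max_one (apply_nonneg v x), max_comm]
  · rw [← finsum_comp_equiv (FinitePlace.equivHeightOneSpectrum (K := K)).symm]
    refine finsum_congr fun v => ?_
    rw [map_one, Real.posLog_eq_log_max_one (apply_nonneg _ x), max_comm]
    rfl

theorem count {K : Type} [Field K] [NumberField K] (T : Set (HeightOneSpectrum (𝓞 K))) (hT : T.Finite) {g t : ℕ}
    {γ : Fin g → K × K} {A : Finset (Fin g)} {deg : Fin t → ℕ} {τ : Fin t → K × K → K × K}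
    {S : Fin t → Fin t → Finset (Fin g)} {u : Fin t → Fin t → K} (h : NormalCrossings γ A deg τ S u) (κ c : ℝ)
    (hκ : 0 ≤ κ) (hκ2 : κ ≤ 2) (σ' : ℝ) (hσ : max (2 * (2 - κ)) (10 / 3) < σ') :
    ∃ C T₀ : ℝ, ∀ X : ℝ, T₀ ≤ X → {z | z ∈ Exceptions T γ A deg τ κ c ∧ H z ≤ X}.Finite ∧
      ({z | z ∈ Exceptions T γ A deg τ κ c ∧ H z ≤ X}.ncard : ℝ) ≤ C * X ^ σ' := by
  obtain ⟨C, hC⟩ := SplitCurves.result K T hT g t h.nonempty.1 h.nonempty.2 γ h.ne_zero h.different A deg τ h.form S u
    h.crossing h.disjoint h.triple κ c (σ' - max (2 * (2 - κ)) (10 / 3)) hκ hκ2 (by linarith)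
  refine ⟨C, 1, fun X hX => ?_⟩
  obtain ⟨h1, h2⟩ := hC X hX
  have hX0 : 0 < X := by linarith
  have h3 : {z | z ∈ Exceptions T γ A deg τ κ c ∧ H z ≤ X} ⊆ {z : K × K | SplitCurves.equation γ A τ z.1 z.2 ≠ 0 ∧
            SplitCurves.height z.1 ≤ Real.log X ∧ SplitCurves.height z.2 ≤ Real.log X ∧
            SplitCurves.counting T γ A deg τ z.1 z.2 < (((A.card + ∑ k, deg k : ℕ) : ℝ) - κ) * SplitCurves.height z.1 +
              ((t : ℝ) - κ) * SplitCurves.height z.2 + c} := by
    rintro z ⟨⟨h4, h5⟩, h6⟩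
    have h7 : max (height z.1) (height z.2) ≤ Real.log X := (Real.le_log_iff_exp_le hX0).2 h6
    exact ⟨h4, (le_max_left _ _).trans h7, (le_max_right _ _).trans h7, h5⟩
  refine ⟨h1.subset h3, ?_⟩
  have h4 : max (2 * (2 - κ)) (10 / 3) + (σ' - max (2 * (2 - κ)) (10 / 3)) = σ' := by ring
  rw [h4] at h2
  refine le_trans ?_ h2
  exact_mod_cast Set.ncard_le_ncard h3 h1

theorem exc_mono {K : Type} [Field K] [NumberField K] {T : Set (HeightOneSpectrum (𝓞 K))} {g t : ℕ}
    {γ : Fin g → K × K} {A : Finset (Fin g)} {deg : Fin t → ℕ} {τ : Fin t → K × K → K × K} {κ κ' c c' : ℝ}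
    (hκ : κ' ≤ κ) (hc : c ≤ c') : Exceptions T γ A deg τ κ c ⊆ Exceptions T γ A deg τ κ' c' := by
  rintro z ⟨h1, h2⟩
  refine ⟨h1, lt_of_lt_of_le h2 ?_⟩
  have h3 : 0 ≤ height z.1 := by rw [height_eq]; exact Height.zero_le_logHeight₁ _
  have h4 : 0 ≤ height z.2 := by rw [height_eq]; exact Height.zero_le_logHeight₁ _
  have h5 := mul_le_mul_of_nonneg_right hκ h3
  have h6 := mul_le_mul_of_nonneg_right hκ h4
  linarith

/-- **Good approximations.** Let `K`, `D`, `T` be as above and `φ : K → ℂ` an embedding.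
(1) For `0 ≤ κ ≤ 2`, `c` and `ρ > 0` the `z ∈ ℂ^2` with infinitely many exceptions `(x, y)` at distance at most `H^(-ρ)`
form a set of Hausdorff dimension at most `max(2 (2 - κ), 10 / 3) / ρ`.
(2) For almost every `z ∈ ℂ^2` and all `κ > 0`, `c` only finitely many exceptions are at distance at most `H^(-1)` from `z`.
(3) For almost every `r ∈ ℝ^2` and all `κ > 0`, `c` only finitely many exceptions are at distance at most `H^(-2)` from `r`. -/
theorem result (K : Type) [Field K] [NumberField K] (φ : K →+* ℂ) (T : Set (HeightOneSpectrum (𝓞 K))) (hT : T.Finite)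
    (g t : ℕ) (γ : Fin g → K × K) (A : Finset (Fin g)) (deg : Fin t → ℕ) (τ : Fin t → K × K → K × K)
    (S : Fin t → Fin t → Finset (Fin g)) (u : Fin t → Fin t → K) (h : NormalCrossings γ A deg τ S u) :
    (∀ κ c ρ : ℝ, 0 ≤ κ → κ ≤ 2 → 0 < ρ →
      dimH {z : Fin 2 → ℂ | {x | x ∈ Exceptions T γ A deg τ κ c ∧ ‖coord φ x - z‖ ≤ H x ^ (-ρ)}.Infinite} ≤
        ENNReal.ofReal (max (2 * (2 - κ)) (10 / 3) / ρ)) ∧
    (∀ᵐ z : Fin 2 → ℂ, ∀ κ c : ℝ, 0 < κ →
      {x | x ∈ Exceptions T γ A deg τ κ c ∧ ‖coord φ x - z‖ ≤ H x ^ (-(1 : ℝ))}.Finite) ∧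
    (∀ᵐ r : Fin 2 → ℝ, ∀ κ c : ℝ, 0 < κ →
      {x | x ∈ Exceptions T γ A deg τ κ c ∧ ‖coord φ x - (fun j => (r j : ℂ))‖ ≤ H x ^ (-(2 : ℝ))}.Finite) := by
  set κs : ℕ → ℝ := fun k => 1 / ((k : ℝ) + 1) with hκs
  have hκ0 : ∀ k, 0 < κs k := fun k => by simp only [hκs]; positivity
  have hκ2 : ∀ k, κs k ≤ 2 := by
    intro k
    have h1 : 1 / ((k : ℝ) + 1) ≤ 1 := by
      rw [div_le_one (by positivity)]
      linarith [(Nat.cast_nonneg k : (0 : ℝ) ≤ k)]
    simp only [hκs]
    linarith
  have hex : ∀ κ c : ℝ, 0 < κ → ∃ k : ℕ, κs k ≤ κ ∧ c ≤ (k : ℝ) := by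
    intro κ c hκ
    obtain ⟨n1, hn1⟩ := exists_nat_one_div_lt hκ
    obtain ⟨n2, hn2⟩ := exists_nat_ge c
    refine ⟨max n1 n2, ?_, ?_⟩
    · have h1 : 1 / (((max n1 n2 : ℕ) : ℝ) + 1) ≤ 1 / ((n1 : ℝ) + 1) := by
        refine one_div_le_one_div_of_le (by positivity) ?_
        have : (n1 : ℝ) ≤ ((max n1 n2 : ℕ) : ℝ) := by exact_mod_cast le_max_left _ _
        linarith
      simp only [hκs]
      linarith
    · exact hn2.trans (by exact_mod_cast le_max_right _ _)
  have hcnt := fun k : ℕ => count T hT h (κs k) (k : ℝ) (hκ0 k).le (hκ2 k)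
  have hlt : ∀ k, max (2 * (2 - κs k)) (10 / 3) < 4 := by
    intro k
    refine max_lt ?_ (by norm_num)
    have := hκ0 k
    linarith
  refine ⟨fun κ c ρ hκ hκ' hρ => ?_, ?_, ?_⟩
  · have h1 := Pool.Agent.Q229.RAH.dim (coord φ) (Exceptions T γ A deg τ κ c) H (count T hT h κ c hκ hκ') ρ hρ
    simp only [dist_eq_norm] at h1
    exact h1
  · have h1 := Pool.Agent.Q229.RAH.ae_complex (n := 2) (by norm_num) (coord φ) H
      (fun k => Exceptions T γ A deg τ (κs k) (k : ℝ)) (fun k => max (2 * (2 - κs k)) (10 / 3)) hcnt 1 one_pos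
      (fun k => by have := hlt k; push_cast; linarith)
    filter_upwards [h1] with z hz κ c hκ
    obtain ⟨k, hk1, hk2⟩ := hex κ c hκ
    exact (hz k).subset fun x hx => ⟨exc_mono hk1 hk2 hx.1, hx.2⟩
  · have h1 := Pool.Agent.Q229.RAH.ae_real (n := 2) (by norm_num) (coord φ) H
      (fun k => Exceptions T γ A deg τ (κs k) (k : ℝ)) (fun k => max (2 * (2 - κs k)) (10 / 3)) hcnt 2 two_pos
      (fun k => by have := hlt k; push_cast; linarith)
    filter_upwards [h1] with z hz κ c hκ
    obtain ⟨k, hk1, hk2⟩ := hex κ c hκ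
    exact (hz k).subset fun x hx => ⟨exc_mono hk1 hk2 hx.1, hx.2⟩

end Pool.Agent.Results.MP_542436_nt.GoodApproximations
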