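import Pool.Agent.Results.MP_542436_nt.BoxExceptions
import Pool.Agent.Results.MP_542436_nt.GridAllHeights
import Pool.Agent.Y854.GM.Win

/-!
# Vojta's truncated inequality for grids on `ℙ¹ × ℙ¹` without exceptions in windows

Let `v ≥ 1` be a sequence with exponent of convergence at most `τ` (for `v_n = (n + 1) ^ a` this is `1 / a`, for
`v_n = b ^ n` it is `0`), `θ < 1` and `D = ⋃ {s = α_i} ∪ ⋃ {t = β_j}` a grid of bidegree `(q, r)`, `3 ≤ q ≤ r`.

1. (Windows of heights.) Let `0 ≤ κ ≤ q`. For all `a > 0` outside a set of Hausdorff dimension at most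
   `(2 - 2 κ / r + τ) / (1 - θ)`, all real `c` and all but finitely many `n`, ALL points `P = (x, y)` off `D` over `ℚ` with
   `|H(x) H(y) - a v_n| ≤ v_n ^ θ` satisfy `N^(1)_D(P) ≥ (q - κ) h(x) + (r - κ) h(y) + c`. For `r ≤ 4` the case
   `κ = 2 + ε` (`0 < ε ≤ q - 2`) is the inequality of the conjecture, and `2 - 2 κ / r < 1`.
2. (Windows of counting functions.) For all `a > 0` outside a set of dimension at most
   `(max (2 / q) (2 / (3 q) + 2 / r) + τ) / (1 - θ)` and all but finitely many `n` there is NO point `P` off `D`, of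
   whatever height, with `|exp N^(1)_D(P) - a v_n| ≤ v_n ^ θ`.
-/

set_option autoImplicit false

namespace Pool.Agent.Results.MP_542436_nt.WindowsWithoutExceptions

/-- the exponent of convergence of the sequence `v` is at most `τ` -/
def ExpLe (v : ℕ → ℝ) (τ : ℝ) : Prop := ∀ t : ℝ, τ < t → Summable (fun n : ℕ => (v n) ^ (-t))

/-- Normalised coprime integer coordinates: each point `[x₀ : x₁]` of the projective line over `ℚ`
has exactly one such pair. -/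
def Coord (x : ℤ × ℤ) : Prop := IsCoprime x.1 x.2 ∧ (0 < x.2 ∨ x.2 = 0 ∧ 0 < x.1)

/-- The height `max (|x₀|, |x₁|)`; its logarithm is `h(x)`. -/
def height (x : ℤ × ℤ) : ℕ := max x.1.natAbs x.2.natAbs

/-- `x₀ a₁ - x₁ a₀`, zero if and only if the points `x` and `a` are equal. -/
def wedge (x a : ℤ × ℤ) : ℤ := x.1 * a.2 - x.2 * a.1

/-- The equation of the union of the fibres `s = α_i` (for coprime coordinates of the `α_i`). -/
def form {q : ℕ} (α : Fin q → ℤ × ℤ) (x : ℤ × ℤ) : ℤ := ∏ i, wedge x (α i)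

/-- The sum over the primes `p ∉ S` of `min (log p, v_p(n) log p)`. -/
noncomputable def trunc (S : Finset ℕ) (n : ℤ) : ℝ :=
  ∑ p ∈ n.natAbs.primeFactors \ S, Real.log (p : ℝ)

/-- the truncated counting function `N^(1)_D(P)` of the grid, without the primes in `S` -/
noncomputable def counting {q r : ℕ} (α : Fin q → ℤ × ℤ) (β : Fin r → ℤ × ℤ) (S : Finset ℕ)
    (P : (ℤ × ℤ) × (ℤ × ℤ)) : ℝ := trunc S (form α P.1 * form β P.2)

/-- `P` is a point of `ℙ¹ × ℙ¹` over `ℚ` which is not on the grid -/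
def OffGrid {q r : ℕ} (α : Fin q → ℤ × ℤ) (β : Fin r → ℤ × ℤ) (P : (ℤ × ℤ) × (ℤ × ℤ)) : Prop :=
  Coord P.1 ∧ Coord P.2 ∧ form α P.1 * form β P.2 ≠ 0

lemma height_pos {x : ℤ × ℤ} (h : Coord x) : 1 ≤ height x := by
  unfold height
  rcases h.2 with h2 | ⟨-, h2⟩
  · exact le_max_of_le_right (by omega)
  · exact le_max_of_le_left (by omega)

/-- the exceptions of all heights with constant `c` -/
def Bad {q r : ℕ} (α : Fin q → ℤ × ℤ) (β : Fin r → ℤ × ℤ) (S : Finset ℕ) (κ c : ℝ) :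
    Set ((ℤ × ℤ) × (ℤ × ℤ)) :=
  {P | OffGrid α β P ∧ counting α β S P <
    ((q : ℝ) - κ) * Real.log (height P.1) + ((r : ℝ) - κ) * Real.log (height P.2) + c}

lemma bad_count {q r : ℕ} (hq : 3 ≤ q) (hqr : q ≤ r) (α : Fin q → ℤ × ℤ) (β : Fin r → ℤ × ℤ)
    (hαc : ∀ i, IsCoprime (α i).1 (α i).2) (hβc : ∀ j, IsCoprime (β j).1 (β j).2)
    (hα : ∀ i j, i ≠ j → (α i).1 * (α j).2 ≠ (α j).1 * (α i).2)
    (hβ : ∀ i j, i ≠ j → (β i).1 * (β j).2 ≠ (β j).1 * (β i).2) (S : Finset ℕ)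
    (κ c ε : ℝ) (hκ0 : 0 ≤ κ) (hκ : κ ≤ q) (hε : 0 < ε) :
    ∃ C : ℝ, ∀ X : ℝ, 1 ≤ X →
      {P | P ∈ Bad α β S κ c ∧ ((height P.1 * height P.2 : ℕ) : ℝ) ≤ X}.Finite ∧
      ({P | P ∈ Bad α β S κ c ∧ ((height P.1 * height P.2 : ℕ) : ℝ) ≤ X}.ncard : ℝ) ≤
        C * X ^ (2 - 2 * κ / (r : ℝ) + ε) := by
  obtain ⟨C, hC, h⟩ := BoxExceptions.result q r hq hqr α β hαc hβc hα hβ S κ c (ε / 2) hκ0 hκ (by linarith)
  set s : ℝ := 2 - 2 * κ / (r : ℝ) with hs
  have hr0 : (0 : ℝ) < r := by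
    have : 0 < r := by omega
    exact_mod_cast this
  have hs0 : 0 ≤ s := by
    have h1 : 2 * κ / (r : ℝ) ≤ 2 := by
      rw [div_le_iff₀ hr0]
      have : (q : ℝ) ≤ r := by exact_mod_cast hqr
      linarith
    rw [hs]
    linarith
  have hlog2 : (0 : ℝ) < Real.log 2 := Real.log_pos (by norm_num)
  refine ⟨(2 / (ε * Real.log 2) + 1) * (C * 2 ^ (s + ε / 2)), fun X hX => ?_⟩
  have hX0 : (0 : ℝ) < X := by linarith
  have hXN : ⌊X⌋₊ ≠ 0 := by
    have : 1 ≤ ⌊X⌋₊ := Nat.le_floor (by exact_mod_cast hX)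
    omega
  set L : ℕ := Nat.log 2 ⌊X⌋₊ with hL
  have h2L : (2 : ℝ) ^ L ≤ X := by
    have h1 : 2 ^ L ≤ ⌊X⌋₊ := Nat.pow_log_le_self 2 hXN
    calc (2 : ℝ) ^ L = ((2 ^ L : ℕ) : ℝ) := by push_cast; rfl
      _ ≤ ((⌊X⌋₊ : ℕ) : ℝ) := by exact_mod_cast h1
      _ ≤ X := Nat.floor_le hX0.le
  set B : ℕ → Set ((ℤ × ℤ) × (ℤ × ℤ)) := fun i => BoxExceptions.Exc α β S κ c (2 ^ (i + 1)) (X / 2 ^ i) with hB
  have hBi : ∀ i ∈ Finset.range (L + 1), (B i).Finite ∧ ((B i).ncard : ℝ) ≤ C * (2 * X) ^ (s + ε / 2) := by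
    intro i hi
    rw [Finset.mem_range] at hi
    have h1 : (2 : ℝ) ^ i ≤ X := (pow_le_pow_right₀ (by norm_num) (by omega)).trans h2L
    have h2 : (0 : ℝ) < 2 ^ i := by positivity
    obtain ⟨h3, h4⟩ := h (2 ^ (i + 1)) (X / 2 ^ i) (one_le_pow₀ (by norm_num)) (by rwa [le_div_iff₀ h2, one_mul])
    refine ⟨h3, h4.trans (le_of_eq ?_)⟩
    congr 2
    rw [pow_succ]
    field_simp
  have hsub : {P | P ∈ Bad α β S κ c ∧ ((height P.1 * height P.2 : ℕ) : ℝ) ≤ X} ⊆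
      ⋃ i ∈ Finset.range (L + 1), B i := by
    rintro P ⟨⟨⟨hP1, hP2, hP3⟩, hbad⟩, hPX⟩
    have hx := height_pos hP1
    have hy := height_pos hP2
    have hxy : height P.1 * height P.2 ≤ ⌊X⌋₊ := Nat.le_floor hPX
    have hxX : height P.1 ≤ ⌊X⌋₊ := by nlinarith
    rw [Set.mem_iUnion₂]
    refine ⟨Nat.log 2 (height P.1), Finset.mem_range.2 (Nat.lt_succ_of_le (Nat.log_mono_right hxX)), ?_⟩
    have h1 : 2 ^ Nat.log 2 (height P.1) ≤ height P.1 := Nat.pow_log_le_self 2 (by omega)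
    have h2 : height P.1 < 2 ^ (Nat.log 2 (height P.1) + 1) := Nat.lt_pow_succ_log_self (by norm_num) _
    have h1' : (2 : ℝ) ^ Nat.log 2 (height P.1) ≤ (height P.1 : ℝ) := by exact_mod_cast h1
    refine ⟨hP1, hP2, hP3, by exact_mod_cast h2.le, ?_, hbad⟩
    rw [le_div_iff₀ (by positivity)]
    have h3 : (0 : ℝ) ≤ (height P.2 : ℝ) := Nat.cast_nonneg _
    push_cast at hPX
    change (height P.2 : ℝ) * _ ≤ X
    nlinarith
  have hfin : (⋃ i ∈ Finset.range (L + 1), B i).Finite :=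
    Set.Finite.biUnion (Finset.finite_toSet _) (fun i hi => (hBi i hi).1)
  refine ⟨hfin.subset hsub, ?_⟩
  have h1 := (Nat.cast_le (α := ℝ)).2 (Set.ncard_le_ncard hsub hfin)
  refine h1.trans ?_
  have h2 : ((⋃ i ∈ Finset.range (L + 1), B i).ncard : ℝ) ≤
      ∑ i ∈ Finset.range (L + 1), ((B i).ncard : ℝ) := by
    have h3 : ∀ F : Finset ℕ, (⋃ i ∈ F, B i).ncard ≤ ∑ i ∈ F, (B i).ncard := by
      intro F
      induction F using Finset.induction_on with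
      | empty => simp
      | insert a F ha ih =>
        rw [Finset.set_biUnion_insert, Finset.sum_insert ha]
        exact (Set.ncard_union_le _ _).trans (by omega)
    exact_mod_cast h3 (Finset.range (L + 1))
  refine h2.trans ?_
  have h3 : ∑ i ∈ Finset.range (L + 1), ((B i).ncard : ℝ) ≤
      ((L : ℝ) + 1) * (C * (2 * X) ^ (s + ε / 2)) := by
    refine (Finset.sum_le_sum (fun i hi => (hBi i hi).2)).trans (le_of_eq ?_)
    rw [Finset.sum_const, Finset.card_range, nsmul_eq_mul]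
    push_cast
    ring
  refine h3.trans ?_
  have hXe : (1 : ℝ) ≤ X ^ (ε / 2) := Real.one_le_rpow hX (by linarith)
  have hLX : (L : ℝ) ≤ 2 / (ε * Real.log 2) * X ^ (ε / 2) := by
    have h4 : (L : ℝ) * Real.log 2 ≤ Real.log X := by
      rw [← Real.log_pow]
      exact Real.log_le_log (by positivity) h2L
    have h5 : Real.log X ≤ X ^ (ε / 2) / (ε / 2) := Real.log_le_rpow_div hX0.le (by linarith)
    have h6 : (L : ℝ) ≤ (X ^ (ε / 2) / (ε / 2)) / Real.log 2 := by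
      rw [le_div_iff₀ hlog2]
      exact h4.trans h5
    refine h6.trans (le_of_eq ?_)
    field_simp
  have hL1 : (L : ℝ) + 1 ≤ (2 / (ε * Real.log 2) + 1) * X ^ (ε / 2) := by
    rw [add_mul, one_mul]
    linarith
  have hpos : 0 ≤ C * (2 * X) ^ (s + ε / 2) := by positivity
  calc ((L : ℝ) + 1) * (C * (2 * X) ^ (s + ε / 2))
      ≤ ((2 / (ε * Real.log 2) + 1) * X ^ (ε / 2)) * (C * (2 * X) ^ (s + ε / 2)) :=
        mul_le_mul_of_nonneg_right hL1 hpos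
    _ = (2 / (ε * Real.log 2) + 1) * (C * 2 ^ (s + ε / 2)) * (X ^ (ε / 2) * X ^ (s + ε / 2)) := by
        rw [Real.mul_rpow (by norm_num) hX0.le]
        ring
    _ = (2 / (ε * Real.log 2) + 1) * (C * 2 ^ (s + ε / 2)) * X ^ (s + ε) := by
        rw [← Real.rpow_add hX0]
        congr 2
        ring

/-- **Theorem.** Let `3 ≤ q ≤ r`, let `α_1, …, α_q` and `β_1, …, β_r` be distinct points of the projective line over
`ℚ`, `S` a finite set of primes, `v ≥ 1` a sequence of exponent of convergence at most `τ ≥ 0` and `θ < 1`.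
(1) Let `0 ≤ κ ≤ q`. For all `a > 0` outside a set of Hausdorff dimension at most `(2 - 2 κ / r + τ) / (1 - θ)`, all real
`c` and all but finitely many `n`, all points `P = (x, y)` off the grid with `|H(x) H(y) - a v_n| ≤ v_n ^ θ` satisfy
`N^(1)_D(P) ≥ (q - κ) h(x) + (r - κ) h(y) + c`.
(2) For all `a > 0` outside a set of dimension at most `(max (2 / q) (2 / (3 q) + 2 / r) + τ) / (1 - θ)` and all but
finitely many `n` there is no point `P` off the grid with `|exp N^(1)_D(P) - a v_n| ≤ v_n ^ θ`.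
The sequences `v_n = (n + 1) ^ a` and `v_n = b ^ n` have exponent of convergence at most `1 / a` and `0`. -/
theorem result :
    (∀ (q r : ℕ), 3 ≤ q → q ≤ r → ∀ (α : Fin q → ℤ × ℤ) (β : Fin r → ℤ × ℤ),
      (∀ i, IsCoprime (α i).1 (α i).2) → (∀ j, IsCoprime (β j).1 (β j).2) →
      (∀ i j, i ≠ j → (α i).1 * (α j).2 ≠ (α j).1 * (α i).2) →
      (∀ i j, i ≠ j → (β i).1 * (β j).2 ≠ (β j).1 * (β i).2) → ∀ S : Finset ℕ,
      ∀ (v : ℕ → ℝ) (τ θ : ℝ), (∀ n, 1 ≤ v n) → 0 ≤ τ → ExpLe v τ → θ < 1 →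
      (∀ κ : ℝ, 0 ≤ κ → κ ≤ q →
        ∃ E : Set ℝ, dimH E ≤ ENNReal.ofReal ((2 - 2 * κ / (r : ℝ) + τ) / (1 - θ)) ∧
          ∀ a : ℝ, 0 < a → a ∉ E → ∀ c : ℝ, ∃ n₀ : ℕ, ∀ n : ℕ, n₀ ≤ n → ∀ P : (ℤ × ℤ) × (ℤ × ℤ),
            OffGrid α β P → |((height P.1 * height P.2 : ℕ) : ℝ) - a * v n| ≤ (v n) ^ θ →
              ((q : ℝ) - κ) * Real.log (height P.1) + ((r : ℝ) - κ) * Real.log (height P.2) + c ≤
                counting α β S P) ∧
      ∃ E : Set ℝ, dimH E ≤ ENNReal.ofReal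
          ((max (2 / (q : ℝ)) (2 / (3 * (q : ℝ)) + 2 / (r : ℝ)) + τ) / (1 - θ)) ∧
        ∀ a : ℝ, 0 < a → a ∉ E → ∃ n₀ : ℕ, ∀ n : ℕ, n₀ ≤ n → ∀ P : (ℤ × ℤ) × (ℤ × ℤ),
          OffGrid α β P → (v n) ^ θ < |Real.exp (counting α β S P) - a * v n|) ∧
    (∀ a : ℝ, 0 < a → ExpLe (fun n : ℕ => ((n : ℝ) + 1) ^ a) (1 / a)) ∧
    (∀ b : ℝ, 1 < b → ExpLe (fun n : ℕ => b ^ n) 0) := by
  refine ⟨fun q r hq hqr α β hαc hβc hα hβ S v τ θ hv hτ hE hθ => ⟨fun κ hκ0 hκ => ?_, ?_⟩,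
    fun κ hκ => Pool.Agent.Y854.GM.expLe_pow κ hκ, fun b hb => Pool.Agent.Y854.GM.expLe_geom b hb⟩
  · have hr0 : (0 : ℝ) < r := by
      have : 0 < r := by omega
      exact_mod_cast this
    have hs0 : 0 ≤ 2 - 2 * κ / (r : ℝ) := by
      have h1 : 2 * κ / (r : ℝ) ≤ 2 := by
        rw [div_le_iff₀ hr0]
        have : (q : ℝ) ≤ r := by exact_mod_cast hqr
        linarith
      linarith
    have key : ∀ m : ℕ, ∃ E : Set ℝ, dimH E ≤ ENNReal.ofReal ((2 - 2 * κ / (r : ℝ) + τ) / (1 - θ)) ∧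
        ∀ a : ℝ, 0 < a → a ∉ E → ∃ n₀ : ℕ, ∀ n : ℕ, n₀ ≤ n → ∀ P : (ℤ × ℤ) × (ℤ × ℤ),
            OffGrid α β P → |((height P.1 * height P.2 : ℕ) : ℝ) - a * v n| ≤ (v n) ^ θ →
              ((q : ℝ) - κ) * Real.log (height P.1) + ((r : ℝ) - κ) * Real.log (height P.2) + (m : ℝ) ≤
                counting α β S P := by
      intro m
      obtain ⟨E, h2, h3⟩ := Pool.Agent.Y854.GM.windows (Bad α β S κ m)
        (fun P => ((height P.1 * height P.2 : ℕ) : ℝ)) hv hτ hE hs0 hθ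
        (fun ε hε => bad_count hq hqr α β hαc hβc hα hβ S κ m ε hκ0 hκ hε)
      refine ⟨E, h2, fun a ha haE => ?_⟩
      obtain ⟨n₀, hn⟩ := h3 a ha haE
      refine ⟨n₀, fun n hn1 P hP hw => ?_⟩
      by_contra hcon
      exact absurd (hn n hn1 P ⟨hP, not_le.1 hcon⟩) (not_lt.2 hw)
    choose F hF1 hF2 using key
    refine ⟨⋃ m, F m, ?_, fun a ha haE c => ?_⟩
    · rw [dimH_iUnion]
      exact iSup_le hF1
    · obtain ⟨m, hm⟩ := exists_nat_ge c
      have ham : a ∉ F m := fun h => haE (Set.mem_iUnion.2 ⟨m, h⟩)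
      obtain ⟨n₀, hn⟩ := hF2 m a ha ham
      exact ⟨n₀, fun n hn1 P hP hw => (by linarith [hn n hn1 P hP hw])⟩
  · obtain ⟨E, h2, h3⟩ := Pool.Agent.Y854.GM.windows {P | OffGrid α β P}
      (fun P => Real.exp (counting α β S P)) hv hτ hE
      (s := max (2 / (q : ℝ)) (2 / (3 * (q : ℝ)) + 2 / (r : ℝ)))
      (le_max_of_le_left (by positivity)) hθ (by
        intro ε hε
        obtain ⟨C, hC, h⟩ := (GridAllHeights.result q r hq hqr α β hαc hβc hα hβ S).1 ε hε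
        refine ⟨C, fun X hX => ?_⟩
        have hsub : {P | P ∈ {P | OffGrid α β P} ∧ Real.exp (counting α β S P) ≤ X} ⊆
            GridAllHeights.Pts α β S X := by
          rintro P ⟨hP, hPX⟩
          refine ⟨hP.1, hP.2.1, hP.2.2, ?_⟩
          have h1 := Real.log_le_log (Real.exp_pos _) hPX
          rw [Real.log_exp] at h1
          exact h1
        obtain ⟨hfin, hle⟩ := h X hX
        exact ⟨hfin.subset hsub, ((Nat.cast_le (α := ℝ)).2 (Set.ncard_le_ncard hsub hfin)).trans hle⟩)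
    refine ⟨E, h2, fun a ha haE => ?_⟩
    obtain ⟨n₀, hn⟩ := h3 a ha haE
    exact ⟨n₀, fun n hn1 P hP => hn n hn1 P hP⟩

end Pool.Agent.Results.MP_542436_nt.WindowsWithoutExceptions
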