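import Mathlib
import Pool.Agent.Q158.RR
import Pool.Agent.Results.MP_542436_nt.WindowsWithoutExceptions

/-!
# Vojta's truncated inequality for grids on `ℙ¹ × ℙ¹` at all points of random height

Let `D = ⋃ {s = α_i} ∪ ⋃ {t = β_j}` be a grid of bidegree `(q, r)`, `3 ≤ q ≤ r`, and let the integer `N` be given by digits
or by multiples of a random real number (in the sense of `RandomReals σ`).

1. If `0 ≤ κ ≤ q` and `2 - 2 κ / r ≤ σ < 1`, then for all `c` and `k` ALL points `P = (x, y)` off `D` over `ℚ` with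
   `|H(x) H(y) - N| ≤ k` satisfy `N^(1)_D(P) ≥ (q - κ) h(x) + (r - κ) h(y) + c`. For `r ≤ 4` the case `κ = 2 + ε`
   (`0 < ε ≤ q - 2`) is the inequality of the conjecture, and `2 - 2 κ / r < 1`.
2. If `max (2 / q) (2 / (3 q) + 2 / r) ≤ σ < 1` then for all `k` there is NO point `P` off `D`, of whatever height, with
   `|exp N^(1)_D(P) - N| ≤ k`.
-/

set_option autoImplicit false

namespace Pool.Agent.Results.MP_542436_nt.RandomGridPoints

open WindowsWithoutExceptions (height counting OffGrid Bad bad_count)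

/-- all points `P = (x, y)` off the grid with `|H(x) H(y) - N| ≤ k` satisfy
`N^(1)_D(P) ≥ (q - κ) h(x) + (r - κ) h(y) + c` -/
def Good {q r : ℕ} (α : Fin q → ℤ × ℤ) (β : Fin r → ℤ × ℤ) (S : Finset ℕ) (κ : ℝ) (c k N : ℕ) : Prop :=
  ∀ P : (ℤ × ℤ) × (ℤ × ℤ), OffGrid α β P → |((height P.1 * height P.2 : ℕ) : ℝ) - N| ≤ k →
    ((q : ℝ) - κ) * Real.log (height P.1) + ((r : ℝ) - κ) * Real.log (height P.2) + c ≤ counting α β S P

/-- there is no point `P` off the grid with `|exp N^(1)_D(P) - N| ≤ k` -/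
def NoPoint {q r : ℕ} (α : Fin q → ℤ × ℤ) (β : Fin r → ℤ × ℤ) (S : Finset ℕ) (k N : ℕ) : Prop :=
  ∀ P : (ℤ × ℤ) × (ℤ × ℤ), OffGrid α β P → (k : ℝ) < |Real.exp (counting α β S P) - N|

/-- **Theorem.** Let `3 ≤ q ≤ r`, let `α_1, …, α_q` and `β_1, …, β_r` be distinct points of the projective line over
`ℚ` and `S` a finite set of primes. In the sense of `RandomReals σ` (windows of digits in all bases, and integers near
the multiples `α v_k`, for random real numbers `α`, with Hausdorff dimensions and measures of the exceptional sets):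
(1) if `0 ≤ κ ≤ q` and `2 - 2 κ / r ≤ σ < 1`, the property `Good α β S κ c k N` holds for all `c` and `k` at once;
(2) if `max (2 / q) (2 / (3 q) + 2 / r) ≤ σ < 1`, the property `NoPoint α β S k N` holds for all `k` at once. -/
theorem result (q r : ℕ) (hq : 3 ≤ q) (hqr : q ≤ r) (α : Fin q → ℤ × ℤ) (β : Fin r → ℤ × ℤ)
    (hαc : ∀ i, IsCoprime (α i).1 (α i).2) (hβc : ∀ j, IsCoprime (β j).1 (β j).2)
    (hα : ∀ i j, i ≠ j → (α i).1 * (α j).2 ≠ (α j).1 * (α i).2)
    (hβ : ∀ i j, i ≠ j → (β i).1 * (β j).2 ≠ (β j).1 * (β i).2) (S : Finset ℕ) (σ : ℝ) (hσ1 : σ < 1) :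
    (∀ κ : ℝ, 0 ≤ κ → κ ≤ q → 2 - 2 * κ / (r : ℝ) ≤ σ →
      Pool.Agent.Q21.DW.RandomReals σ (fun (p : ℕ × ℕ) (N : ℕ) => Good α β S κ p.1 p.2 N)) ∧
    (max (2 / (q : ℝ)) (2 / (3 * (q : ℝ)) + 2 / (r : ℝ)) ≤ σ →
      Pool.Agent.Q21.DW.RandomReals σ (fun (k : ℕ) (N : ℕ) => NoPoint α β S k N)) := by
  refine ⟨fun κ hκ0 hκ hσ => ?_, fun hσ => ?_⟩
  · have hr0 : (0 : ℝ) < r := by
      have : 0 < r := by omega
      exact_mod_cast this
    have hs0 : 0 ≤ 2 - 2 * κ / (r : ℝ) := by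
      have h1 : 2 * κ / (r : ℝ) ≤ 2 := by
        rw [div_le_iff₀ hr0]
        have : (q : ℝ) ≤ r := by exact_mod_cast hqr
        linarith
      linarith
    refine Pool.Agent.Q158.RR.mono (Pool.Agent.Q158.RR.random (fun c : ℕ => Bad α β S κ c)
      (fun _ P => ((height P.1 * height P.2 : ℕ) : ℝ)) σ (hs0.trans hσ) hσ1 fun c =>
        Pool.Agent.Q158.RR.weaken hσ (fun ε hε => bad_count hq hqr α β hαc hβc hα hβ S κ c ε hκ0 hκ hε))
      id fun p N h => ?_
    intro P hP hw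
    by_contra hcon
    exact absurd (h P ⟨hP, not_le.1 hcon⟩) (not_lt.2 hw)
  · have hs0 : 0 ≤ max (2 / (q : ℝ)) (2 / (3 * (q : ℝ)) + 2 / (r : ℝ)) := le_max_of_le_left (by positivity)
    refine Pool.Agent.Q158.RR.mono (Pool.Agent.Q158.RR.random (fun _ : Unit => {P | OffGrid α β P})
      (fun _ P => Real.exp (counting α β S P)) σ (hs0.trans hσ) hσ1 fun _ =>
        Pool.Agent.Q158.RR.weaken hσ (fun ε hε => ?_)) (fun k => ((), k)) fun k N h P hP => h P hP
    obtain ⟨C, hC, h⟩ := (GridAllHeights.result q r hq hqr α β hαc hβc hα hβ S).1 ε hε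
    refine ⟨C, fun X hX => ?_⟩
    have hsub : {P | P ∈ {P | OffGrid α β P} ∧ Real.exp (counting α β S P) ≤ X} ⊆
        GridAllHeights.Pts α β S X := by
      rintro P ⟨hP, hPX⟩
      refine ⟨hP.1, hP.2.1, hP.2.2, ?_⟩
      have h1 := Real.log_le_log (Real.exp_pos _) hPX
      rw [Real.log_exp] at h1
      exact h1
    obtain ⟨hfin, hle⟩ := h X hX
    exact ⟨hfin.subset hsub, ((Nat.cast_le (α := ℝ)).2 (Set.ncard_le_ncard hsub hfin)).trans hle⟩

end Pool.Agent.Results.MP_542436_nt.RandomGridPoints
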